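import Pool.Agent.Lib_helper73.SV.Main

/-!
# Graphs for all finite groups in terms of the nonabelian chief factors

Let the finite group `G` be given as the automorphism group of an edge-coloured digraph on `n`
vertices (any number of colours), and let every chief factor of `G` be abelian or of order at most
`β`.  Then `G` is the automorphism group of a simple graph with fewer than
`263 n √(1 + log₂ min(β, n))` vertices, in particular with fewer than `263 n` vertices if `G` is
solvable.

The proof is a recursion along a chief series.  A normal subgroup `N` is called controlling if every
finite `G`-set (of bounded cardinality) on which `N` acts trivially, divided into two invariant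
sides, can be embedded into a structure with `b` invariant binary relations and invariant types on
at most `32` times as many nodes, such that every automorphism moves every pair of points of
different sides inside its `G`-orbit, and an automorphism that fixes the points is the identity.
`G` is controlling, and if `A > N` are normal, `A` is controlling and `A / N` is elementary abelian,
or the `A`-orbits have at most `2 ^ b` points, then `N` is controlling:

* In the second case the orbits of `A` are handled by `A`, and the points are found in them by
  marks, which are the bits of the number of a point in its orbit.
* In the elementary abelian case the recursion is applied to the `A`-orbits together with, on the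
  side with fewer moved points, the directions, that is the subgroups `M` of index `p` above the
  stabilizers (so the cardinality goes down by half of the number of moved points on the other
  side, which pays for the new nodes).  The hyperplanes (orbits of the subgroups `M`) over
  a direction form an affine line over `ZMod p`; a relation of Paley type and Carlitz's theorem
  make the automorphism affine on it, and two marks make it agree with the group on pairs of
  hyperplanes with the same `M`.  The pairs of points follow by inverting a Radon transform: the
  numbers of pairs in a given orbit of `G` that are met by the hyperplanes through two points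
  determine whether the two points form a pair in this orbit.

The structure is turned into a graph with `s + 2` layers of the nodes; one relation is coded
between each two layers which are not consecutive, so `s (s + 1) / 2 ≥ b + 1` is enough.

The files are in `Pool/Agent/Lib_helper73/SV/`: `Gad2` (layers), `Count` (subgroups of index `p`,
Radon transform), `Str` (structures, extensions), `Nodes`, `Coord`, `Base`, `Card`, `Marks`, `Bits`,
`Raw`, `Three`, `Four`, `StepE` (elementary abelian factors), `StepB` (small orbits), `Main`.
-/

namespace Pool.Agent.Results.MP_961fdb_co.ChiefFactors

open Pool.Agent.SV

theorem result (β : ℕ) (hβ : 1 ≤ β) (G : Type) [Group G] [Finite G] (n k : ℕ)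
    (c : Fin n → Fin n → Option (Fin k)) (hn : 0 < n) (φ : G →* Equiv.Perm (Fin n))
    (hφ : Function.Injective ⇑φ)
    (hAut : ∀ σ : Equiv.Perm (Fin n),
      (∀ x y : Fin n, c (σ x) (σ y) = c x y) ↔ σ ∈ Set.range ⇑φ)
    (hG : Group.IsSolvable G ∨ ChiefSmall β G) :
    ∃ (m : ℕ) (Γ : SimpleGraph (Fin m)) (ψ : G →* Equiv.Perm (Fin m)),
      Function.Injective ⇑ψ ∧
      (∀ σ : Equiv.Perm (Fin m),
        (∀ x y : Fin m, Γ.Adj (σ x) (σ y) ↔ Γ.Adj x y) ↔ σ ∈ Set.range ⇑ψ) ∧
      (m : ℝ) < 263 * √(1 + Real.logb 2 (min β n : ℕ)) * n := by
  refine graph_of_chiefSmall hβ G n k c hn φ hφ hAut ?_
  rcases hG with hG | hG
  · exact chiefSmall_of_isSolvable β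
  · exact hG

end Pool.Agent.Results.MP_961fdb_co.ChiefFactors
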