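import Pool.Agent.Lib_helper73.VG.Main

/-!
# Graphs for groups whose vertex stabilizers are joined to the group by short steps

Let `G` be a finite group given as the automorphism group of an edge-coloured digraph on `n`
vertices (any number of colours).  If every vertex stabilizer is joined to `G` by a chain of
subgroups each step `A ≤ B` of which

* has index at most `b`, or
* has `A` normal in `B` and `B` generated by `A` and `b` elements, or
* has prime index `p`, and `B` acts on the `p` cosets of `A` as a subgroup of `AGL(1,p)`,

then `G` is the automorphism group of a simple graph with fewer than `(4 b² + 14 b + 15) n` vertices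
(`59 n` for `b = 2`).

The proof: the vertices of the digraph are completed by the cosets of the subgroups of the chains
(at most `2n` nodes, as the indices at least double) and by coverings of degree at most `b`.  On
these nodes a bounded number of binary relations is defined, which determine the orbits of `G` on
pairs of nodes step by step: in a step of the first kind all children of a node are marked, in a
normal step one child is marked and the right multiplications by the generators are drawn, in an
affine step two children are marked and the rest is determined by a relation of Paley type on a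
twofold covering of the children and Carlitz's theorem.

The files are in `Pool/Agent/Lib_helper73/VG/`: `Gad` (from relations to graphs), `Loc`, `Carlitz`,
`Aff` (the steps), `Sys`, `Tree` (nodes and orbits on pairs), `Steps` (`Chain`).
-/

namespace Pool.Agent.Results.MP_961fdb_co.StabilizerChains

open Pool.Agent.VG

theorem result (b : ℕ) (hb : 2 ≤ b) (G : Type) [Group G] [Finite G] (n k : ℕ)
    (c : Fin n → Fin n → Option (Fin k)) (hn : 0 < n) (φ : G →* Equiv.Perm (Fin n))
    (hφ : Function.Injective ⇑φ)
    (hAut : ∀ σ : Equiv.Perm (Fin n),
      (∀ x y : Fin n, c (σ x) (σ y) = c x y) ↔ σ ∈ Set.range ⇑φ)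
    (hG : ∀ x : Fin n, Chain b ((MulAction.stabilizer (Equiv.Perm (Fin n)) x).comap φ)) :
    ∃ (m : ℕ) (Γ : SimpleGraph (Fin m)) (ψ : G →* Equiv.Perm (Fin m)),
      Function.Injective ⇑ψ ∧
      (∀ σ : Equiv.Perm (Fin m),
        (∀ x y : Fin m, Γ.Adj (σ x) (σ y) ↔ Γ.Adj x y) ↔ σ ∈ Set.range ⇑ψ) ∧
      (m : ℝ) < (4 * b ^ 2 + 14 * b + 15) * n :=
  graph_of_joined (by omega) G n k c hn φ hφ hAut fun x => (hG x).joined hb

end Pool.Agent.Results.MP_961fdb_co.StabilizerChains
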